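import Pool.Agent.HEC.Stmts

/-!
# Row MCT of the squad HEC: a maximum cut
-/

set_option autoImplicit false

open Finset

namespace Pool.Agent.HEC.H64

theorem cnt_congr {α : Type} [Fintype α] {p q : α → Prop} (h : ∀ a, p a ↔ q a) :
    cnt p = cnt q := by
  have : p = q := funext fun a => propext (h a)
  rw [this]

theorem cnt_split {α : Type} [Fintype α] (p q : α → Prop) :
    cnt p = cnt (fun a => p a ∧ q a) + cnt (fun a => p a ∧ ¬ q a) := by
  classical
  unfold cnt
  rw [← card_union_of_disjoint]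
  · congr 1
    ext a
    simp only [mem_filter, mem_univ, true_and, mem_union]
    tauto
  · rw [disjoint_left]
    intro a h1 h2
    simp only [mem_filter, mem_univ, true_and] at h1 h2
    exact h2.2 h1.2

theorem cnt_swap {V : Type} [Fintype V] (p : V × V → Prop) :
    cnt (fun a : V × V => p (a.2, a.1)) = cnt p := by
  classical
  unfold cnt
  refine card_nbij' (fun a => (a.2, a.1)) (fun a => (a.2, a.1)) ?_ ?_ ?_ ?_
  · intro a ha
    simpa using ha
  · intro a ha
    simpa using ha
  · intro a _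
    rfl
  · intro a _
    rfl

/-- exactly one end in `W` -/
def cross {V : Type} (W : Finset V) (a : V × V) : Prop :=
  (a.1 ∈ W ∧ a.2 ∉ W) ∨ (a.1 ∉ W ∧ a.2 ∈ W)

theorem cnt_cross {V : Type} [Fintype V] (F : SimpleGraph V) (W : Finset V) :
    cnt (fun a : V × V => F.Adj a.1 a.2 ∧ cross W a) = 2 * cut F W := by
  rw [cnt_split _ (fun a : V × V => a.1 ∈ W)]
  have h1 : cnt (fun a : V × V => (F.Adj a.1 a.2 ∧ cross W a) ∧ a.1 ∈ W) = cut F W := by
    unfold cut
    apply cnt_congr
    intro a
    unfold cross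
    tauto
  have h2 : cnt (fun a : V × V => (F.Adj a.1 a.2 ∧ cross W a) ∧ ¬ a.1 ∈ W) = cut F W := by
    unfold cut
    rw [← cnt_swap]
    apply cnt_congr
    intro a
    have h3 := F.adj_comm a.1 a.2
    unfold cross
    simp only
    tauto
  rw [h1, h2]
  omega

theorem mct : MctStmt := by
  intro V _ G
  classical
  obtain ⟨t, ht⟩ := Finite.exists_max (fun t : V → Bool => e2 (dif G t))
  refine ⟨t, fun W => ?_⟩
  have h1 := ht (fun v => if v ∈ W then !(t v) else t v)
  obtain ⟨t', ht'⟩ : ∃ t' : V → Bool, t' = fun v => if v ∈ W then !(t v) else t v := ⟨_, rfl⟩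
  rw [← ht'] at h1
  have hin : ∀ v, v ∈ W → t' v = !(t v) := by
    intro v hv
    rw [ht']
    simp [hv]
  have hout : ∀ v, v ∉ W → t' v = t v := by
    intro v hv
    rw [ht']
    simp [hv]
  have key : ∀ s : V → Bool, e2 (dif G s) = 2 * cut (dif G s) W +
      cnt (fun a : V × V => (dif G s).Adj a.1 a.2 ∧ ¬ cross W a) := by
    intro s
    rw [← cnt_cross]
    exact cnt_split _ _
  have h2 : cnt (fun a : V × V => (dif G t').Adj a.1 a.2 ∧ ¬ cross W a) =
      cnt (fun a : V × V => (dif G t).Adj a.1 a.2 ∧ ¬ cross W a) := by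
    apply cnt_congr
    rintro ⟨u, v⟩
    unfold cross dif
    simp only
    by_cases hu : u ∈ W <;> by_cases hv : v ∈ W
    · simp [hu, hv, hin u hu, hin v hv]
    · simp [hu, hv]
    · simp [hu, hv]
    · simp [hu, hv, hout u hu, hout v hv]
  have h3 : cut (dif G t') W = cut (sam G t) W := by
    unfold cut
    apply cnt_congr
    rintro ⟨u, v⟩
    unfold dif sam
    simp only
    by_cases hu : u ∈ W <;> by_cases hv : v ∈ W
    · simp [hu, hv]
    · simp [hu, hv, hin u hu, hout v hv]
    · simp [hu, hv]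
    · simp [hu, hv]
  have h4 := key t
  have h5 := key t'
  rw [h2, h3] at h5
  omega

end Pool.Agent.HEC.H64
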